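import Pool.Agent.R627.AC.Stm
import Pool.Agent.R194.Baz.Ext

/-! # AC7: nonnegativity of the coefficients of the dominant -/

namespace Pool.Agent.R627.AC

open PowerSeries Metric Pool.Agent.R194.Baz MeasureTheory Filter Topology

namespace NonnegAux

open scoped ComplexOrder

/-- Caratheodory's bound -/
theorem cara {p : ℂ → ℂ} (hp : DifferentiableOn ℂ p (ball 0 1))
    (hpos : ∀ z ∈ ball (0:ℂ) 1, 0 < (p z).re) (hp0 : p 0 = 1) (m : ℕ) (hm : m ≠ 0) :
    ‖coeff m (tay p)‖ ≤ 2 := by
  have key : ∀ r : ℝ, 0 < r → r < 1 → r ^ m * ‖coeff m (tay p)‖ ≤ 2 := by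
    intro r h0 h1
    obtain ⟨ν, hν, h⟩ := herglotz hp hpos hp0 h0 h1
    have h2 := congrArg (fun z : ℂ => ‖z‖) (h m)
    simp only [norm_mul, norm_pow, Complex.norm_real, Real.norm_eq_abs, abs_of_pos h0] at h2
    rw [h2]
    have h3 : ‖coeff m P0‖ = 2 := by
      rw [P0, coeff_mk, if_neg hm]
      simp
    have h4 : ‖∫ θ : ℝ, Complex.exp (-(θ * Complex.I)) ^ m ∂ν‖ ≤ 1 := by
      refine (norm_integral_le_of_norm_le_const (C := 1) ?_).trans ?_
      · refine Filter.Eventually.of_forall fun θ => ?_
        rw [norm_pow]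
        have : -((θ : ℂ) * Complex.I) = ((-θ : ℝ) : ℂ) * Complex.I := by push_cast; ring
        rw [this, Complex.norm_exp_ofReal_mul_I, one_pow]
      · simp
    rw [h3]
    linarith
  have ht : Tendsto (fun r : ℝ => r ^ m * ‖coeff m (tay p)‖) (𝓝[<] 1)
      (𝓝 ((1 : ℝ) ^ m * ‖coeff m (tay p)‖)) := by
    have hc : Continuous (fun r : ℝ => r ^ m * ‖coeff m (tay p)‖) := by fun_prop
    exact (hc.tendsto 1).mono_left nhdsWithin_le_nhds
  rw [one_pow, one_mul] at ht
  refine le_of_tendsto ht ?_
  have : ∀ᶠ r : ℝ in 𝓝[<] 1, r ∈ Set.Ioo (0:ℝ) 1 := Ioo_mem_nhdsLT (by norm_num)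
  filter_upwards [this] with r hr
  exact key r hr.1 hr.2

theorem an0 {f : ℂ → ℂ} (hf : An f) : AnalyticAt ℂ f 0 :=
  hf.analyticAt (ball_mem_nhds _ one_pos)

end NonnegAux

open NonnegAux

open scoped ComplexOrder in
theorem nonneg : StNonneg := by
  intro α Q hα hα1 hQ
  have hQan := an0 hQ.an
  have hQd := hQan.deriv
  set q := tay Q with hq
  set d := P0 - q with hd
  have hαC : (α : ℂ) ≠ 0 := by exact_mod_cast hα.ne'
  -- the equation of q
  have hp0an : AnalyticAt ℂ (fun z : ℂ => (1 + z) / (1 - z)) 0 := by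
    refine AnalyticAt.div (by fun_prop) (by fun_prop) (by simp)
  have e1 : PowerSeries.C (α : ℂ) * (X * derivative ℂ q) = q * d := by
    have h1 : tay (fun z => (α : ℂ) * (z * deriv Q z)) =
        tay (fun z => Q z * ((1 + z) / (1 - z) - Q z)) := by
      apply tay_congr_ball
      intro z hz
      rw [← hQ.ode z hz]
      ring
    have hid : AnalyticAt ℂ (fun z : ℂ => z) 0 := analyticAt_id
    rw [tay_const_mul (f := fun z => z * deriv Q z) _ (hid.mul hQd), tay_mul hid hQd, tay_id,
      ← tay_deriv] at h1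
    rw [h1]
    have hdan : AnalyticAt ℂ (fun z : ℂ => (1 + z) / (1 - z) - Q z) 0 := hp0an.sub hQan
    rw [tay_mul (f := Q) (g := fun z : ℂ => (1 + z) / (1 - z) - Q z) hQan hdan]
    congr 1
    have h2 : tay (fun z : ℂ => (1 + z) / (1 - z) - Q z) + tay Q = P0 := by
      rw [← tay_add hdan hQan, ← tay_p0]
      apply tay_congr_ball
      intro z _
      ring
    rw [hd, ← h2]
    ring
  have hq0 : coeff 0 q = 1 := by
    rw [coeff_zero_eq_constantCoeff_apply, hq, tay_zero, hQ.zero]
  have hd0 : coeff 0 d = 0 := by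
    rw [hd, map_sub, hq0, P0, coeff_mk, if_pos rfl, sub_self]
  have hdn : ∀ n, n ≠ 0 → coeff n d = 2 - coeff n q := by
    intro n hn
    rw [hd, map_sub, P0, coeff_mk, if_neg hn]
  have hXd : ∀ (g : PowerSeries ℂ) (n : ℕ), coeff n (X * derivative ℂ g) = n * coeff n g := by
    intro g n
    cases n with
    | zero => simp
    | succ n => rw [coeff_succ_X_mul, coeff_derivative]; push_cast; ring
  have c1 : ∀ n : ℕ, (α : ℂ) * (n * coeff n q) =
      ∑ p ∈ Finset.HasAntidiagonal.antidiagonal n, coeff p.1 q * coeff p.2 d := by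
    intro n
    rw [← PowerSeries.coeff_mul, ← e1, coeff_C_mul, hXd]
  -- reality
  have hreal : ∀ n, (coeff n q).im = 0 := by
    intro n
    induction n using Nat.strong_induction_on with
    | _ n ih =>
      rcases Nat.eq_zero_or_pos n with hn | hn
      · subst hn; rw [hq0]; simp
      · have h1 := c1 n
        have hmem : (0, n) ∈ Finset.HasAntidiagonal.antidiagonal n := by simp
        rw [← Finset.add_sum_erase _ _ hmem] at h1
        simp only at h1
        rw [hq0, one_mul, hdn n hn.ne'] at h1
        have h2 : (∑ p ∈ (Finset.HasAntidiagonal.antidiagonal n).erase (0, n), coeff p.1 q * coeff p.2 d).im = 0 := by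
          rw [Complex.im_sum]
          refine Finset.sum_eq_zero fun p hp => ?_
          rw [Finset.mem_erase, Finset.HasAntidiagonal.mem_antidiagonal] at hp
          by_cases hp2 : p.2 = 0
          · rw [hp2, hd0, mul_zero, Complex.zero_im]
          · have hp1 : p.1 ≠ 0 := by
              intro h
              apply hp.1
              ext
              · exact h
              · simp only; omega
            rw [Complex.mul_im, ih p.1 (by omega), hdn p.2 hp2, Complex.sub_im,
              ih p.2 (by omega)]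
            simp
        have h3 := congrArg Complex.im h1
        rw [Complex.add_im, h2, Complex.sub_im] at h3
        have h4 : ((α : ℂ) * (n * coeff n q)).im = α * (n * (coeff n q).im) := by
          rw [Complex.im_ofReal_mul]
          congr 1
          have : ((n : ℂ) * coeff n q) = ((n : ℝ) : ℂ) * coeff n q := by push_cast; ring
          rw [this, Complex.im_ofReal_mul]
        rw [h4] at h3
        have h5 : (2 : ℂ).im = 0 := by simp
        rw [h5] at h3
        have h6 : (α * n + 1) * (coeff n q).im = 0 := by linarith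
        rcases mul_eq_zero.1 h6 with h7 | h7
        · have : 0 < α * n + 1 := by positivity
          linarith
        · exact h7
  have hdnn : ∀ n, 0 ≤ coeff n d := by
    intro n
    rcases Nat.eq_zero_or_pos n with hn | hn
    · subst hn; rw [hd0]
    · rw [hdn n hn.ne', Complex.nonneg_iff]
      have h1 := cara hQ.an hQ.pos hQ.zero n hn.ne'
      have h2 := (Complex.abs_re_le_norm (coeff n q)).trans h1
      have h3 := (abs_le.1 h2).2
      refine ⟨?_, ?_⟩
      · rw [Complex.sub_re]
        have : (2 : ℂ).re = 2 := by simp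
        rw [this]
        linarith
      · rw [Complex.sub_im, hreal n]
        simp
  -- the function H
  have hslit : ∀ z ∈ ball (0:ℂ) 1, Q z ∈ Complex.slitPlane := fun z hz => Or.inl (hQ.pos z hz)
  set Hf : ℂ → ℂ := fun z => Complex.exp (((1 - α : ℝ) : ℂ) * Complex.log (Q z)) with hHf
  have hder : ∀ z ∈ ball (0:ℂ) 1, HasDerivAt Hf
      (Hf z * (((1 - α : ℝ) : ℂ) * (deriv Q z / Q z))) z := by
    intro z hz
    have h1 : HasDerivAt Q (deriv Q z) z :=
      (hQ.an.differentiableAt (isOpen_ball.mem_nhds hz)).hasDerivAt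
    have h2 := (h1.clog (hslit z hz)).const_mul (((1 - α : ℝ) : ℂ))
    exact h2.cexp
  have hHan : An Hf := fun z hz => (hder z hz).differentiableAt.differentiableWithinAt
  have hH0 := an0 hHan
  set H := tay Hf with hH
  have e2 : PowerSeries.C (α : ℂ) * (X * derivative ℂ H) =
      PowerSeries.C ((1 - α : ℝ) : ℂ) * (d * H) := by
    have hid : AnalyticAt ℂ (fun z : ℂ => z) 0 := analyticAt_id
    have hdan : AnalyticAt ℂ (fun z : ℂ => (1 + z) / (1 - z) - Q z) 0 := hp0an.sub hQan
    have h1 : tay (fun z => (α : ℂ) * (z * deriv Hf z)) =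
        tay (fun z => ((1 - α : ℝ) : ℂ) * (((1 + z) / (1 - z) - Q z) * Hf z)) := by
      apply tay_congr_ball
      intro z hz
      rw [(hder z hz).deriv]
      have h2 := hQ.ode z hz
      have h3 : Q z ≠ 0 := Complex.slitPlane_ne_zero (hslit z hz)
      have h4 : (α : ℂ) * z * deriv Q z / Q z = (1 + z) / (1 - z) - Q z := by
        rw [h2, mul_comm, mul_div_assoc, div_self h3, mul_one]
      rw [← h4]
      ring
    rw [tay_const_mul (f := fun z => z * deriv Hf z) _ (hid.mul hH0.deriv), tay_mul hid hH0.deriv,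
      tay_id, ← tay_deriv, tay_const_mul (f := fun z => ((1 + z) / (1 - z) - Q z) * Hf z) _
        (hdan.mul hH0), tay_mul hdan hH0] at h1
    rw [h1]
    congr 2
    have h2 : tay (fun z : ℂ => (1 + z) / (1 - z) - Q z) + tay Q = P0 := by
      rw [← tay_add hdan hQan, ← tay_p0]
      apply tay_congr_ball
      intro z _
      ring
    rw [hd, ← h2]
    ring
  have c2 : ∀ n : ℕ, (α : ℂ) * (n * coeff n H) =
      ((1 - α : ℝ) : ℂ) * ∑ p ∈ Finset.HasAntidiagonal.antidiagonal n, coeff p.1 d * coeff p.2 H := by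
    intro n
    have h1 := congrArg (coeff n) e2
    rw [coeff_C_mul, hXd, coeff_C_mul, PowerSeries.coeff_mul] at h1
    exact h1
  have hHnn : ∀ n, 0 ≤ coeff n H := by
    intro n
    induction n using Nat.strong_induction_on with
    | _ n ih =>
      rcases Nat.eq_zero_or_pos n with hn | hn
      · subst hn
        rw [coeff_zero_eq_constantCoeff_apply, hH, tay_zero, hHf]
        simp only [hQ.zero, Complex.log_one, mul_zero, Complex.exp_zero]
        exact zero_le_one
      · have h1 : 0 ≤ ∑ p ∈ Finset.HasAntidiagonal.antidiagonal n, coeff p.1 d * coeff p.2 H := by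
          refine Finset.sum_nonneg fun p hp => ?_
          rw [Finset.HasAntidiagonal.mem_antidiagonal] at hp
          by_cases hp1 : p.1 = 0
          · rw [hp1, hd0, zero_mul]
          · exact mul_nonneg (hdnn _) (ih p.2 (by omega))
        have h2 : (0 : ℂ) ≤ ((1 - α : ℝ) : ℂ) := by
          rw [Complex.zero_le_real]; linarith
        have h3 := mul_nonneg h2 h1
        rw [← c2 n] at h3
        have h4 : (0 : ℂ) ≤ (((α * n)⁻¹ : ℝ) : ℂ) := by
          rw [Complex.zero_le_real]; positivity
        have h5 := mul_nonneg h4 h3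
        have hnC : (n : ℂ) ≠ 0 := by exact_mod_cast hn.ne'
        have h6 : (((α * n)⁻¹ : ℝ) : ℂ) * ((α : ℂ) * (n * coeff n H)) = coeff n H := by
          push_cast
          field_simp
        rwa [h6] at h5
  intro n
  have h1 := Complex.nonneg_iff.1 (hHnn n)
  refine ⟨(coeff n H).re, h1.1, ?_⟩
  apply Complex.ext
  · simp
  · rw [Complex.ofReal_im]
    exact h1.2.symm

end Pool.Agent.R627.AC
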